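import Pool.Agent.Q273.AD.Stm2

/-!
# Job CNVK of the project AD: the losses over a number field
-/

set_option autoImplicit false

namespace Q71.AD

open MeasureTheory NumberField IsDedekindDomain Pool.Agent.H691R3 Pool.Agent.W232.VA Height
open Q273.MV Q273.AD Pool.Agent.W223.AK
open Pool.Agent.Results.MP_4d5ce1_nt.ExceptionalSetExponents (height counting)

variable {K : Type} [Field K] [NumberField K]

lemma hh_form (t : K) : hh t = ∑ w : InfinitePlace K, (w.mult : ℝ) * Real.log (max (w t) (w 1)) +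
    ∑ᶠ v : HeightOneSpectrum (𝓞 K), Real.log (max (FinitePlace.mk v t) (FinitePlace.mk v 1)) := by
  have hd : (Module.finrank ℚ K : ℝ) ≠ 0 := (finrank_posR K).ne'
  rw [hh_eq]
  unfold height
  rw [mul_div_cancel₀ _ hd]

lemma ht_eq_hh (t : K) : ht t = hh t := by
  rw [hh_form]
  rfl

lemma hh_neg (t : K) : hh (-t) = hh t := by
  rw [hh_form, hh_form]
  congr 1
  · refine Finset.sum_congr rfl fun w _ => ?_
    have : w (-t) = w t := w.1.map_neg t
    rw [this]
  · refine finsum_congr fun v => ?_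
    have : FinitePlace.mk v (-t) = FinitePlace.mk v t := (fv v).map_neg t
    rw [this]

lemma H3_hh {x : Fin 3 → K} (h2 : x 2 ≠ 0) (hs : x 0 + x 1 + x 2 = 0) :
    |H3 x - hh (-(x 0 / x 2))| ≤ lossK K := by
  set x' : Fin 3 → K := ![x 0, x 2, x 1] with hx'
  have e0 : x' 0 = x 0 := rfl
  have e1 : x' 1 = x 2 := rfl
  have e2 : x' 2 = x 1 := rfl
  have hH : H3 x' = H3 x := by
    unfold H3
    rw [e0, e1, e2]
    congr 1
    · refine Finset.sum_congr rfl fun w _ => ?_
      rw [max_comm (w (x 2))]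
    · refine finsum_congr fun v => ?_
      rw [max_comm (FinitePlace.mk v (x 2))]
  have h := H3_bounds (x := x') (by rw [e1]; exact h2) (by rw [e0, e1, e2, ← hs]; ring)
  rw [e0, e1, hH, ht_eq_hh] at h
  rw [hh_neg, abs_le]
  constructor
  · have : 0 ≤ lossK K := by
      unfold lossK
      refine Finset.sum_nonneg fun w _ => ?_
      have := Real.log_nonneg (by norm_num : (1 : ℝ) ≤ 2)
      positivity
    linarith [h.1]
  · linarith [h.2]

lemma al_ne (i : Fin 3) : al K i ≠ 0 := by
  fin_cases i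
  · intro h; exact one_ne_zero (congrArg Prod.snd h)
  · intro h; exact one_ne_zero (congrArg Prod.snd h)
  · intro h; exact one_ne_zero (congrArg Prod.fst h)

lemma scaled0 {x : Fin 3 → K} (h2 : x 2 ≠ 0) (hs : x 0 + x 1 + x 2 = 0) (i : Fin 3) :
    x i = x 2 * (-(x 0 / x 2) * (al K i).2 - 1 * (al K i).1) ∨
    x i = -(x 2 * (-(x 0 / x 2) * (al K i).2 - 1 * (al K i).1)) := by
  fin_cases i
  · right
    show x 0 = -(x 2 * (-(x 0 / x 2) * 1 - 1 * 0))
    field_simp
    ring
  · left
    show x 1 = x 2 * (-(x 0 / x 2) * 1 - 1 * 1)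
    field_simp
    linear_combination hs
  · right
    show x 2 = -(x 2 * (-(x 0 / x 2) * 0 - 1 * 1))
    ring

lemma scaled {x : Fin 3 → K} (h2 : x 2 ≠ 0) (hs : x 0 + x 1 + x 2 = 0) (v : HeightOneSpectrum (𝓞 K))
    (i : Fin 3) : fv v (x i) = fv v (x 2) *
      fv v (-(x 0 / x 2) * (al K i).2 - 1 * (al K i).1) := by
  rw [← map_mul]
  rcases scaled0 h2 hs i with h | h
  · conv_lhs => rw [h]
  · conv_lhs => rw [h, (fv v).map_neg]

lemma max_al (v : HeightOneSpectrum (𝓞 K)) (i : Fin 3) :
    max (FinitePlace.mk v (al K i).1) (FinitePlace.mk v (al K i).2) = 1 := by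
  have h0 : FinitePlace.mk v (0 : K) = 0 := (fv v).map_zero
  have h1 : FinitePlace.mk v (1 : K) = 1 := (fv v).map_one
  fin_cases i
  · show max (FinitePlace.mk v (0 : K)) (FinitePlace.mk v (1 : K)) = 1
    rw [h0, h1]
    norm_num
  · show max (FinitePlace.mk v (1 : K)) (FinitePlace.mk v (1 : K)) = 1
    rw [h1]
    norm_num
  · show max (FinitePlace.mk v (1 : K)) (FinitePlace.mk v (0 : K)) = 1
    rw [h0, h1]
    norm_num

lemma max3 {x : Fin 3 → K} (h2 : x 2 ≠ 0) (hs : x 0 + x 1 + x 2 = 0)
    (v : HeightOneSpectrum (𝓞 K)) :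
    max (FinitePlace.mk v (x 0)) (max (FinitePlace.mk v (x 1)) (FinitePlace.mk v (x 2))) =
      fv v (x 2) * max (FinitePlace.mk v (-(x 0 / x 2))) (FinitePlace.mk v 1) := by
  have e0 : fv v (x 0) = fv v (x 2) * fv v (-(x 0 / x 2)) := by
    rw [(fv v).map_neg, ← map_mul, mul_div_cancel₀ _ h2]
  have e1 : fv v (x 1) ≤ max (fv v (x 0)) (fv v (x 2)) := by
    have : x 1 = -(x 0 + x 2) := by linear_combination hs
    rw [this, map_neg_eq_map]
    exact fv_na v _ _
  show max (fv v (x 0)) (max (fv v (x 1)) (fv v (x 2))) =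
    fv v (x 2) * max (fv v (-(x 0 / x 2))) (fv v 1)
  rw [max_left_comm, max_eq_right e1, e0, mul_max_of_nonneg _ _ ((fv v).nonneg _), (fv v).map_one,
    mul_one]

lemma lam_iff {x : Fin 3 → K} (hx : ∀ i, x i ≠ 0) (hs : x 0 + x 1 + x 2 = 0)
    (v : HeightOneSpectrum (𝓞 K)) (i : Fin 3) :
    0 < Pool.Agent.W232.VA.lam (fv v) (frm (al K i)) (vec (-(x 0 / x 2))) ↔
      FinitePlace.mk v (x i) <
    max (FinitePlace.mk v (x 0)) (max (FinitePlace.mk v (x 1)) (FinitePlace.mk v (x 2))) := by
  have hp2 := (fv v).pos (hx 2)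
  have e := scaled (hx 2) hs v i
  have hpi := (fv v).pos (hx i)
  set l := -(x 0 / x 2) * (al K i).2 - 1 * (al K i).1 with hl
  have hpl : 0 < fv v l := by
    rw [e] at hpi
    exact pos_of_mul_pos_right hpi hp2.le
  rw [lam_vec, max_al, mul_one, max3 (hx 2) hs v]
  show _ ↔ fv v (x i) < _
  rw [e, mul_lt_mul_iff_right₀ hp2]
  set M := max (FinitePlace.mk v (-(x 0 / x 2))) (FinitePlace.mk v 1) with hM
  have hM1 : 1 ≤ M := by
    have : FinitePlace.mk v (1 : K) = 1 := (fv v).map_one
    rw [hM, this]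
    exact le_max_right _ _
  have hpl' : 0 < FinitePlace.mk v l := hpl
  rw [Real.log_pos_iff (by positivity), lt_div_iff₀ hpl', one_mul]
  exact Iff.rfl

open Classical in
lemma NK_form (T : Set (HeightOneSpectrum (𝓞 K))) (x : Fin 3 → K) (i : Fin 3) :
    NK T x i = ∑ᶠ v : HeightOneSpectrum (𝓞 K), if v ∉ T ∧ FinitePlace.mk v (x i) <
    max (FinitePlace.mk v (x 0)) (max (FinitePlace.mk v (x 1)) (FinitePlace.mk v (x 2))) then
      Real.log (Nv v) else 0 := by
  unfold NK
  refine finsum_congr fun v => ?_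
  rw [finsum_eq_if]
  rfl

lemma loss_eq {T : Set (HeightOneSpectrum (𝓞 K))} (hT : T.Finite) {x : Fin 3 → K}
    (hx : ∀ i, x i ≠ 0) (hs : x 0 + x 1 + x 2 = 0) (i : Fin 3) :
    hh (-(x 0 / x 2)) - sI T (al K i) (-(x 0 / x 2)) = NK T x i := by
  classical
  have hl : -(x 0 / x 2) * (al K i).2 - 1 * (al K i).1 ≠ 0 := by
    intro h
    apply hx i
    rcases scaled0 (hx 2) hs i with h3 | h3
    · rw [h3, h, mul_zero]
    · rw [h3, h, mul_zero, neg_zero]
  unfold sI
  rw [sub_sub_cancel, counting_single hT (al_ne i) hl, NK_form]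
  unfold N1
  refine finsum_congr fun v => ?_
  refine if_congr ?_ rfl rfl
  rw [Set.Finite.mem_toFinset]
  constructor
  · rintro ⟨h, _, h3⟩
    exact ⟨h, (lam_iff hx hs v i).1 h3⟩
  · rintro ⟨h, h3⟩
    exact ⟨h, 0, (lam_iff hx hs v i).2 h3⟩

lemma real_case {a b c L : ℝ} (ha : a ≤ max b c) (hb : b ≤ max a c) (hc : c ≤ max a b) :
    (if ¬ (a = b ∧ b = c) then L else 0) =
      (if a < max a (max b c) then L else 0) + (if b < max a (max b c) then L else 0) +
      (if c < max a (max b c) then L else 0) := by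
  rcases lt_trichotomy a b with h1 | h1 | h1
  · -- c = b
    have h3 : c = b := by
      rcases le_total b c with h | h
      · rcases le_max_iff.1 hc with h4 | h4
        · linarith
        · exact le_antisymm h4 h
      · rcases le_max_iff.1 hb with h4 | h4
        · linarith
        · exact le_antisymm h h4
    subst h3
    rw [max_self, max_eq_right h1.le, if_pos h1, if_neg (lt_irrefl _), if_pos]
    · ring
    · rintro ⟨h, _⟩
      exact h1.ne h
  · subst h1
    have h3 : c ≤ a := by simpa using hc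
    rcases h3.lt_or_eq with h | h
    · rw [max_eq_left h3, max_self, if_neg (lt_irrefl _), if_pos h, if_pos]
      · ring
      · rintro ⟨_, h4⟩
        exact h.ne h4.symm
    · subst h
      rw [max_self, max_self, if_neg (lt_irrefl _), if_neg]
      · ring
      · push Not
        exact ⟨rfl, rfl⟩
  · have h3 : c = a := by
      rcases le_total a c with h | h
      · rcases le_max_iff.1 hc with h4 | h4
        · exact le_antisymm h4 h
        · linarith
      · rcases le_max_iff.1 ha with h4 | h4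
        · linarith
        · exact le_antisymm h h4
    subst h3
    rw [max_eq_right h1.le, max_self, if_neg (lt_irrefl _), if_pos h1, if_pos]
    · ring
    · rintro ⟨h, _⟩
      exact h1.ne' h

lemma R3_sum {T : Set (HeightOneSpectrum (𝓞 K))} {x : Fin 3 → K}
    (hx : ∀ i, x i ≠ 0) (hs : x 0 + x 1 + x 2 = 0) : R3 T x = ∑ i, NK T x i := by
  classical
  have hna : ∀ (v : HeightOneSpectrum (𝓞 K)) (a b c : K), a + b + c = 0 →
      fv v a ≤ max (fv v b) (fv v c) := by
    intro v a b c h
    have : a = -(b + c) := by linear_combination h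
    rw [this, map_neg_eq_map]
    exact fv_na v _ _
  have hfin : ∀ i : Fin 3, (Function.support fun v : HeightOneSpectrum (𝓞 K) =>
      if v ∉ T ∧ FinitePlace.mk v (x i) < max (FinitePlace.mk v (x 0))
        (max (FinitePlace.mk v (x 1)) (FinitePlace.mk v (x 2))) then
      Real.log (Nv v) else 0).Finite := by
    intro i
    refine (((fv_support_finite (hx 0)).union (fv_support_finite (hx 1))).union
      (fv_support_finite (hx 2))).subset ?_
    intro v hv
    by_contra hcon
    simp only [Set.mem_union, Set.mem_ofPred_eq, not_or, not_not] at hcon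
    obtain ⟨⟨c0, c1⟩, c2⟩ := hcon
    have c0' : FinitePlace.mk v (x 0) = 1 := c0
    have c1' : FinitePlace.mk v (x 1) = 1 := c1
    have c2' : FinitePlace.mk v (x 2) = 1 := c2
    apply hv
    refine if_neg ?_
    rintro ⟨_, h⟩
    rw [c0', c1', c2', max_self, max_self] at h
    have : FinitePlace.mk v (x i) = 1 := by
      fin_cases i
      · exact c0'
      · exact c1'
      · exact c2'
    rw [this] at h
    exact lt_irrefl _ h
  have e : ∀ i, NK T x i = _ := fun i => NK_form T x i
  rw [Fin.sum_univ_three, e 0, e 1, e 2, ← finsum_add_distrib (hfin 0) (hfin 1),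
    ← finsum_add_distrib _ (hfin 2)]
  · unfold R3
    refine finsum_congr fun v => ?_
    rw [finsum_eq_if]
    by_cases hv : v ∉ T
    · have h := real_case (L := Real.log (Nv v)) (hna v (x 0) (x 1) (x 2) hs)
        (hna v (x 1) (x 0) (x 2) (by linear_combination hs))
        (hna v (x 2) (x 0) (x 1) (by linear_combination hs))
      simp only [hv, not_false_eq_true, true_and]
      exact h
    · simp only [hv, false_and, if_false, add_zero]
  · exact ((hfin 0).union (hfin 1)).subset (Function.support_add _ _)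

theorem cnvk : Q273.AD.S_CNVK := by
  intro K _ _
  refine ⟨lossK K, ?_, ?_⟩
  · unfold lossK
    refine Finset.sum_nonneg fun w _ => ?_
    have := Real.log_nonneg (by norm_num : (1 : ℝ) ≤ 2)
    positivity
  · intro T hT x hx hs
    exact ⟨H3_hh (hx 2) hs, fun i => loss_eq hT hx hs i, R3_sum hx hs⟩

end Q71.AD
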